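import Pool.Agent.Work.MP_b17785_an.Bd.B02

/-!
# Multipliers close to the identity have deviations of order exactly `n`: statements

`K z = z - z ^ 2 / 2` has a cusp at `1`; the functions `fV V` (`V → 0`) are univalent rational
functions with a cusp at `1` which tend to `K`, but `fV'' 1 = - qh`, where `qh` has negative real
part.
-/

set_option autoImplicit false

open Complex Metric Set Filter Topology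
open scoped ComplexConjugate

namespace Pool.Agent.MultS
namespace LO

/-- the poles (in the variable `p = (1 + V - z) / V`) -/
noncomputable def rh : Fin 3 → ℂ := ![0, 3 * I, -(1 / 3) * I]

/-- the residues -/
noncomputable def rr : Fin 3 → ℂ :=
  ![1, (9 / 10) * (-63 - 16 * I), (1 / 10) * (-63 - 16 * I)]

/-- the poles in the variable `z` -/
noncomputable def ss (V : ℝ) (i : Fin 3) : ℂ := 1 + V * (1 - rh i)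

noncomputable def QQ (V : ℝ) (z : ℂ) : ℂ := ∑ i, rr i / (ss V i - z)

noncomputable def WW (V : ℝ) (z : ℂ) : ℂ := 1 + 100 * V - z + V ^ 2 * QQ V z

/-- the hooked cusp function -/
noncomputable def fV (V : ℝ) (z : ℂ) : ℂ := 1 / 2 - WW V z ^ 2 / 2

/-- its derivative -/
noncomputable def fV1 (V : ℝ) (z : ℂ) : ℂ :=
  -WW V z * (-1 + V ^ 2 * ∑ i, rr i / (ss V i - z) ^ 2)

/-- `-fV'' 1` -/
noncomputable def qh : ℂ := -(3739 / 20) + (5067 / 5) * I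

/-- Taylor coefficients of `QQ` -/
noncomputable def Qc (V : ℝ) (n : ℕ) : ℂ := ∑ i, rr i * ((ss V i)⁻¹) ^ (n + 1)

/-- Taylor coefficients of `fV - (const + (1 + 100 V) z - z ^ 2 / 2)` -/
noncomputable def ec (V : ℝ) (n : ℕ) : ℂ :=
  -(V : ℂ) ^ 3 * (∑ i, rr i * (99 + rh i) * ((ss V i)⁻¹) ^ (n + 1)) -
    (V : ℂ) ^ 4 / 2 * ∑ k ∈ Finset.range (n + 1), Qc V k * Qc V (n - k)

/-- [Univ] -/
def Univ : Prop :=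
  ∀ V : ℝ, 0 < V → DifferentiableOn ℂ (fV V) (ball 0 1) ∧ InjOn (fV V) (ball 0 1)

/-- [Tip] -/
def Tip : Prop :=
  ∀ V : ℝ, 0 < V → (∀ z ∈ ball (0 : ℂ) 1, HasDerivAt (fV V) (fV1 V z) z) ∧ fV1 V 1 = 0 ∧
    HasDerivAt (fV1 V) (-qh) 1 ∧ DifferentiableOn ℂ (fV1 V) (ball 0 1)

/-- [Ser] -/
def SerV : Prop :=
  ∀ V : ℝ, 0 < V → ∀ z ∈ closedBall (0 : ℂ) 1,
    HasSum (fun n : ℕ => ec V n * z ^ n)
      (fV V z - (1 / 2 - (1 + 100 * V) ^ 2 / 2 - V ^ 2 * ∑ i, rr i + (1 + 100 * V) * z -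
        z ^ 2 / 2))

/-- [Bd] -/
def BdV : Prop :=
  ∃ K : ℝ, 0 < K ∧ ∀ V : ℝ, 0 < V → V ≤ 1 → ∀ n : ℕ,
    ‖ec V n‖ ≤ K * (V ^ 3 * (1 / (1 + V)) ^ n + V ^ 4 * (n + 1) * (1 / (1 + V)) ^ n)

/-- [Sm] -/
def SmV : Prop :=
  ∃ B : ℝ, 0 < B ∧ ∀ V : ℝ, 0 < V → V ≤ 1 →
    Summable (fun n : ℕ => (n : ℝ) ^ 2 * ‖ec V n‖) ∧
    Summable (fun n : ℕ => (n : ℝ) ^ 3 * ‖ec V n‖) ∧
    ∑' n : ℕ, (n : ℝ) ^ 2 * ‖ec V n‖ ≤ B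

/-- [Zero] a critical point enters the disk -/
def ZeroEx : Prop :=
  ∀ (F : ℂ → ℂ) (q : ℂ) (L Z c : ℝ), q ≠ 0 → 0 ≤ L → 0 ≤ Z → 0 < c →
    DifferentiableOn ℂ F (ball 0 1) → F 1 = 0 → HasDerivAt F (-q) 1 →
    ∃ e0 : ℝ, 0 < e0 ∧ ∀ e : ℝ, 0 < e → e < e0 → ∀ (D : ℂ → ℂ) (D1 : ℂ),
      DifferentiableOn ℂ D (ball 0 1) → ‖D1‖ ≤ e * Z → e * c ≤ (D1 / q).re →
      (∀ z ∈ ball (0 : ℂ) 1, ‖D z - D1‖ ≤ e * L * ‖1 - z‖) →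
      ∃ z ∈ ball (0 : ℂ) 1, F z = D z

/-- [Alg] -/
def AlgQ : Prop :=
  ∀ x : ℂ, 0 ≤ x.re →
    (x / qh).re ≤ -(1 / 10000) * ‖x‖ ∨ (conj x / qh).re ≤ -(1 / 10000) * ‖x‖

/-- [Nle] -/
def NleV : Prop := ∀ lam : ℕ → ℂ, IsMult lam → ∀ n : ℕ, 1 ≤ n → ‖lam n‖ ≤ 1

/-- [One] -/
def OneV : Prop := ∀ lam : ℕ → ℂ, IsMult lam → lam 2 = 1 → ∀ n : ℕ, 1 ≤ n → lam n = 1

/-- [Cj] -/
def CjV : Prop := ∀ lam : ℕ → ℂ, IsMult lam → IsMult (fun n => conj (lam n))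

/-- [Main] -/
def LowMain : Prop :=
  ∃ c : ℝ, 0 < c ∧ ∀ (om : ℕ → ℝ) (d : ℝ), 0 < d → (∀ᶠ n : ℕ in atTop, om n ≤ c * d * n) →
    ∃ e0 : ℝ, 0 < e0 ∧ ∀ lam : ℕ → ℂ, IsMult lam → ∀ e : ℝ, 0 < e → e < e0 →
      (∀ n : ℕ, 1 ≤ n → ‖1 - lam n‖ ≤ e * om n) → ‖1 - lam 2‖ ≤ d * e

/-- [Semi] -/
def LowSemi : Prop :=
  ∃ c : ℝ, 0 < c ∧ ∀ ga : ℕ → ℂ, (∀ t : ℝ, 0 < t → IsMult (fun n => Complex.exp (-(t * ga n)))) →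
    (∀ n : ℕ, 1 ≤ n → ga n = 0) ∨
      (ga 2 ≠ 0 ∧ ∃ᶠ n : ℕ in atTop, c * ‖ga 2‖ * n ≤ ‖ga n‖)

end LO
end Pool.Agent.MultS
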