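import Pool.Agent.Work.MP_b17785_an.Bd.B06
import Pool.Agent.Work.MP_b17785_an.Bd.B04

/-!
# Multipliers close to the identity: assembly
-/

set_option autoImplicit false

open Complex Metric Set Filter Topology

namespace Pool.Agent.MultS
namespace LO

theorem lowMain : LowMain :=
  prfLowMain prfUniv prfTip prfSerV prfBdV (prfSmV prfBdV) prfZeroEx prfAlgQ prfNleV prfCjV

theorem lowAll :
    (∃ c : ℝ, 0 < c ∧ ∀ (om : ℕ → ℝ) (d : ℝ), 0 < d → (∀ᶠ n : ℕ in atTop, om n ≤ c * d * n) →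
      ∃ e0 : ℝ, 0 < e0 ∧ ∀ lam : ℕ → ℂ, Lit Sc lam → ∀ e : ℝ, 0 < e → e < e0 →
        (∀ n : ℕ, 1 ≤ n → ‖1 - lam n‖ ≤ e * om n) → ‖1 - lam 2‖ ≤ d * e) ∧
    (∃ c : ℝ, 0 < c ∧ ∀ ga : ℕ → ℂ,
      (∀ t : ℝ, 0 < t → Lit Sc (fun n => Complex.exp (-(t * ga n)))) →
      (∀ n : ℕ, 1 ≤ n → ga n = 0) ∨
        (ga 2 ≠ 0 ∧ ∃ᶠ n : ℕ in atTop, c * ‖ga 2‖ * n ≤ ‖ga n‖)) := by
  refine ⟨?_, ?_⟩
  · obtain ⟨c, hc, h⟩ := lowMain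
    refine ⟨c, hc, fun om d hd hev => ?_⟩
    obtain ⟨e0, he0, h'⟩ := h om d hd hev
    exact ⟨e0, he0, fun lam hlam => h' lam (prfLitMult lam hlam)⟩
  · obtain ⟨c, hc, h⟩ := prfLowSemi lowMain prfNleV prfOneV
    exact ⟨c, hc, fun ga hga => h ga fun t ht => prfLitMult _ (hga t ht)⟩

end LO
end Pool.Agent.MultS
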